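import Mathlib
import Pool.Agent.Helper86.FBLines

set_option autoImplicit false

open Complex Pool.Agent.Helper86.FB

namespace Pool.Agent.Results.MP_090e3f_an.InfiniteOrderOnLines

private theorem aux {a b : ℂ × ℂ → ℂ} (ha : Differentiable ℂ a) (hb : Differentiable ℂ b)
    (hinj : Function.Injective fun p => (exp (a p), exp (b p))) {α β : ℂ}
    (hαβ : (α, β) ≠ (0, 0)) {e₁ e₂ : ℂ × ℂ} (he : LinearIndependent ℂ ![e₁, e₂]) :
    {t : ℂ | ∃ (K : ℝ) (N : ℕ), ∀ s : ℂ,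
      (α * a (s • e₁ + t • e₂) + β * b (s • e₁ + t • e₂)).re ≤ K * (1 + ‖s‖ ^ N)}.Countable := by
  have h : ¬ (α = 0 ∧ β = 0) := by
    rintro ⟨rfl, rfl⟩; exact hαβ rfl
  set L : ℂ × ℂ → ℂ × ℂ := fun q => q.1 • e₁ + q.2 • e₂ with hL
  have hLd : Differentiable ℂ L := by
    intro q
    have h1 : DifferentiableAt ℂ (fun q : ℂ × ℂ => q.1 • e₁) q :=
      (differentiableAt_fst).smul_const e₁
    have h2 : DifferentiableAt ℂ (fun q : ℂ × ℂ => q.2 • e₂) q :=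
      (differentiableAt_snd).smul_const e₂
    exact h1.add h2
  have hLinj : Function.Injective L := by
    intro q q' hqq
    simp only [hL] at hqq
    have h1 : (q.1 - q'.1) • e₁ + (q.2 - q'.2) • e₂ = 0 := by
      have : (q.1 - q'.1) • e₁ + (q.2 - q'.2) • e₂
          = (q.1 • e₁ + q.2 • e₂) - (q'.1 • e₁ + q'.2 • e₂) := by
        rw [sub_smul, sub_smul]; abel
      rw [this, hqq, sub_self]
    obtain ⟨h2, h3⟩ := LinearIndependent.pair_iff.1 he _ _ h1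
    exact Prod.ext (sub_eq_zero.1 h2) (sub_eq_zero.1 h3)
  have hpi := pair_inj hinj h
  have := countable_lines (A := uu a b α β ∘ L) (B := vv a b α β ∘ L)
    ((uu_diff ha hb).comp hLd) ((vv_diff ha hb).comp hLd)
    (show Function.Injective fun p => (uu a b α β (L p), vv a b α β (L p)) from hpi.comp hLinj)
    (lam := lam α β 1 0) (mu := mu α β 1 0)
    (fun P Q hPQ => no_shift hinj h (by simp) (L P) (L Q) hPQ)
  exact this

/-- Let `F = (f, g) : ℂ² → ℂ²` be holomorphic and injective with zero-free components `f, g`, and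
let `e₁, e₂` be a basis of `ℂ²`. Then on all but countably many of the parallel complex lines
`{s e₁ + t e₂ : s ∈ ℂ}`, `t ∈ ℂ`, every zero-free function `f^m g^n` with `(m, n) ≠ (0, 0)` has
infinite order. More generally, for any holomorphic logarithms `a, b` of
`f, g` (they exist) and any `(α, β) ≠ (0, 0)` in `ℂ²`, the real part of `α a + β b` is of
polynomial growth on at most countably many of these lines. -/
theorem result (F : ℂ × ℂ → ℂ × ℂ) (hF : Differentiable ℂ F) (hinj : Function.Injective F)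
    (h0 : ∀ p, (F p).1 ≠ 0 ∧ (F p).2 ≠ 0) (e₁ e₂ : ℂ × ℂ)
    (he : LinearIndependent ℂ ![e₁, e₂]) :
    {t : ℂ | ∃ m n : ℤ, (m, n) ≠ (0, 0) ∧ ∃ (K : ℝ) (N : ℕ), ∀ s : ℂ,
        ‖(F (s • e₁ + t • e₂)).1 ^ m * (F (s • e₁ + t • e₂)).2 ^ n‖
          ≤ Real.exp (K * (1 + ‖s‖ ^ N))}.Countable ∧
    (∃ a b : ℂ × ℂ → ℂ, Differentiable ℂ a ∧ Differentiable ℂ b ∧
      ∀ p, F p = (exp (a p), exp (b p))) ∧
    ∀ a b : ℂ × ℂ → ℂ, Differentiable ℂ a → Differentiable ℂ b →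
      (∀ p, F p = (exp (a p), exp (b p))) →
      ∀ α β : ℂ, (α, β) ≠ (0, 0) →
        {t : ℂ | ∃ (K : ℝ) (N : ℕ), ∀ s : ℂ,
          (α * a (s • e₁ + t • e₂) + β * b (s • e₁ + t • e₂)).re
            ≤ K * (1 + ‖s‖ ^ N)}.Countable := by
  have hex : ∃ a b : ℂ × ℂ → ℂ, Differentiable ℂ a ∧ Differentiable ℂ b ∧
      ∀ p, F p = (exp (a p), exp (b p)) := by
    have h1 : Differentiable ℂ fun p => (F p).1 := differentiable_fst.comp hF
    have h2 : Differentiable ℂ fun p => (F p).2 := differentiable_snd.comp hF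
    obtain ⟨a, ha, hae⟩ := exists_log h1 (fun p => (h0 p).1)
    obtain ⟨b, hb, hbe⟩ := exists_log h2 (fun p => (h0 p).2)
    exact ⟨a, b, ha, hb, fun p => Prod.ext (hae p).symm (hbe p).symm⟩
  have hmain : ∀ a b : ℂ × ℂ → ℂ, Differentiable ℂ a → Differentiable ℂ b →
      (∀ p, F p = (exp (a p), exp (b p))) →
      ∀ α β : ℂ, (α, β) ≠ (0, 0) →
        {t : ℂ | ∃ (K : ℝ) (N : ℕ), ∀ s : ℂ,
          (α * a (s • e₁ + t • e₂) + β * b (s • e₁ + t • e₂)).re
            ≤ K * (1 + ‖s‖ ^ N)}.Countable := by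
    intro a b ha hb hab α β hαβ
    have hinj' : Function.Injective fun p => (exp (a p), exp (b p)) := by
      have : (fun p => (exp (a p), exp (b p))) = F := funext fun p => (hab p).symm
      rw [this]; exact hinj
    exact aux ha hb hinj' hαβ he
  refine ⟨?_, hex, hmain⟩
  obtain ⟨a, b, ha, hb, hab⟩ := hex
  have hsub : {t : ℂ | ∃ m n : ℤ, (m, n) ≠ (0, 0) ∧ ∃ (K : ℝ) (N : ℕ), ∀ s : ℂ,
        ‖(F (s • e₁ + t • e₂)).1 ^ m * (F (s • e₁ + t • e₂)).2 ^ n‖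
          ≤ Real.exp (K * (1 + ‖s‖ ^ N))} ⊆
      ⋃ q : {q : ℤ × ℤ // q ≠ (0, 0)}, {t : ℂ | ∃ (K : ℝ) (N : ℕ), ∀ s : ℂ,
          ((q.1.1 : ℂ) * a (s • e₁ + t • e₂) + (q.1.2 : ℂ) * b (s • e₁ + t • e₂)).re
            ≤ K * (1 + ‖s‖ ^ N)} := by
    rintro t ⟨m, n, hmn, hK⟩
    refine Set.mem_iUnion.2 ⟨⟨(m, n), hmn⟩, ?_⟩
    obtain ⟨K, N, h⟩ := hK
    refine ⟨K, N, fun s => ?_⟩
    have h1 := h s
    rw [hab] at h1
    simp only at h1
    rw [← exp_int_mul, ← exp_int_mul, ← exp_add, norm_exp, Real.exp_le_exp] at h1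
    exact h1
  refine (Set.countable_iUnion ?_).mono hsub
  rintro ⟨⟨m, n⟩, hmn⟩
  have hmn' : ((m : ℂ), (n : ℂ)) ≠ (0, 0) := by
    intro h
    apply hmn
    have h1 : (m : ℂ) = 0 := (Prod.ext_iff.1 h).1
    have h2 : (n : ℂ) = 0 := (Prod.ext_iff.1 h).2
    have h3 : m = 0 := by exact_mod_cast h1
    have h4 : n = 0 := by exact_mod_cast h2
    rw [h3, h4]
  exact hmain a b ha hb hab m n hmn'

end Pool.Agent.Results.MP_090e3f_an.InfiniteOrderOnLines
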