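import Mathlib
import Pool.Agent.Helper86.FBCore

set_option autoImplicit false

open Complex

namespace Pool.Agent.Results.MP_090e3f_an.NoCurveInCosets

/-- Let `F : ℂ² → ℂ²` be holomorphic and injective with zero-free components. Then `F` has entire
logarithms `a, b`, and for any holomorphic logarithms `a, b` and any `(α, β) ≠ (0, 0)` in `ℂ²` the
function `α a + β b` is nonconstant along every nonconstant entire curve `φ : ℂ → ℂ²`. -/
theorem result (F : ℂ × ℂ → ℂ × ℂ) (hF : Differentiable ℂ F) (hinj : Function.Injective F)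
    (h0 : ∀ p, (F p).1 ≠ 0 ∧ (F p).2 ≠ 0) :
    (∃ a b : ℂ × ℂ → ℂ, Differentiable ℂ a ∧ Differentiable ℂ b ∧
      ∀ p, F p = (exp (a p), exp (b p))) ∧
    ∀ a b : ℂ × ℂ → ℂ, Differentiable ℂ a → Differentiable ℂ b →
      (∀ p, F p = (exp (a p), exp (b p))) →
      ∀ α β : ℂ, (α, β) ≠ (0, 0) →
        ∀ φ : ℂ → ℂ × ℂ, Differentiable ℂ φ → (∃ s s', φ s ≠ φ s') →
          ∃ s s', α * a (φ s) + β * b (φ s) ≠ α * a (φ s') + β * b (φ s') := by
  constructor
  · have h1 : Differentiable ℂ fun p => (F p).1 := differentiable_fst.comp hF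
    have h2 : Differentiable ℂ fun p => (F p).2 := differentiable_snd.comp hF
    obtain ⟨a, ha, hae⟩ := Pool.Agent.Helper86.FB.exists_log h1 (fun p => (h0 p).1)
    obtain ⟨b, hb, hbe⟩ := Pool.Agent.Helper86.FB.exists_log h2 (fun p => (h0 p).2)
    exact ⟨a, b, ha, hb, fun p => Prod.ext (hae p).symm (hbe p).symm⟩
  · intro a b ha hb hab α β hαβ φ hφ hnc
    by_contra hcon
    push Not at hcon
    have hinj' : Function.Injective fun p => (exp (a p), exp (b p)) := by
      have : (fun p => (exp (a p), exp (b p))) = F := funext fun p => (hab p).symm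
      rw [this]; exact hinj
    have h : ¬ (α = 0 ∧ β = 0) := by
      rintro ⟨rfl, rfl⟩; exact hαβ rfl
    obtain ⟨s, s', hss⟩ := hnc
    exact hss (Pool.Agent.Helper86.FB.no_curve ha hb hinj' h hφ (fun s => hcon s 0) s s')

end Pool.Agent.Results.MP_090e3f_an.NoCurveInCosets
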